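import Mathlib
import Pool.Agent.H96.HK.Targets

/-!
# MP_e94f6f_an, module JAC: Jacobi fields of the geodesic family
-/

open MeasureTheory Set Filter Topology
open scoped ContDiff

namespace Pool.Agent.H32.HK

open Pool.Agent.H96.HK

namespace JAC

/-- comparison for the Jacobi equation -/
theorem ode (j j' q : ℝ → ℝ) (K : ℝ) (hK : 0 ≤ K) (hj : ∀ r, HasDerivAt j (j' r) r)
    (hj' : ∀ r, HasDerivAt j' (q r * j r) r) (h0 : j 0 = 0) (h1 : j' 0 = 1)
    (hq0 : ∀ r, 0 ≤ q r) (hqK : ∀ r, q r ≤ K) :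
    (∀ r, 0 ≤ r → r ≤ j r) ∧ (∀ r, 0 < r → j r / r ≤ j' r) ∧
      ∀ r, 0 < r → j' r ≤ j r * (1 / r + K * r) := by
  have cj : Continuous j := continuous_iff_continuousAt.2 fun r => (hj r).continuousAt
  have cj' : Continuous j' := continuous_iff_continuousAt.2 fun r => (hj' r).continuousAt
  -- the product is monotone
  have hprod : Monotone (fun r => j r * j' r) := by
    have hd : ∀ r, HasDerivAt (fun r => j r * j' r) (j' r * j' r + j r * (q r * j r)) r :=
      fun r => (hj r).mul (hj' r)
    refine monotone_of_deriv_nonneg (fun r => (hd r).differentiableAt) (fun r => ?_)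
    rw [(hd r).deriv]
    have := hq0 r
    nlinarith [sq_nonneg (j' r), mul_nonneg this (sq_nonneg (j r))]
  have hprod0 : ∀ r, 0 ≤ r → 0 ≤ j r * j' r := by
    intro r hr
    have := hprod hr
    simp only [h0, zero_mul] at this
    exact this
  have hsq : MonotoneOn (fun r => j r ^ 2) (Ici 0) := by
    have hd : ∀ r, HasDerivAt (fun r => j r ^ 2) (2 * (j r * j' r)) r := by
      intro r
      have h2 : HasDerivAt (fun r => j r ^ 2) _ r := (hj r).pow 2
      refine h2.congr_deriv ?_
      simp only [Nat.cast_ofNat, Nat.add_one_sub_one, pow_one]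
      ring
    refine monotoneOn_of_deriv_nonneg (convex_Ici 0) (cj.pow 2).continuousOn
      (fun r _ => (hd r).differentiableAt.differentiableWithinAt) (fun r hr => ?_)
    rw [interior_Ici] at hr
    rw [(hd r).deriv]
    have := hprod0 r (le_of_lt hr)
    linarith
  -- positivity near zero
  obtain ⟨ε, hε, hpos⟩ : ∃ ε > 0, ∀ r ∈ Ioc 0 ε, 0 < j r := by
    have h2 : ∀ᶠ r in 𝓝 (0 : ℝ), 0 < j' r := by
      refine cj'.continuousAt.eventually (lt_mem_nhds ?_)
      rw [h1]
      exact one_pos
    obtain ⟨ε, hε, h3⟩ := Metric.eventually_nhds_iff.1 h2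
    refine ⟨ε / 2, by positivity, fun r hr => ?_⟩
    have h4 : StrictMonoOn j (Icc 0 (ε / 2)) := by
      refine strictMonoOn_of_deriv_pos (convex_Icc _ _) cj.continuousOn (fun x hx => ?_)
      rw [interior_Icc] at hx
      rw [(hj x).deriv]
      apply h3
      rw [Real.dist_eq, sub_zero, abs_of_pos hx.1]
      linarith [hx.2]
    have h5 := h4 ⟨le_rfl, by positivity⟩ ⟨hr.1.le, hr.2⟩ hr.1
    rwa [h0] at h5
  have hjpos : ∀ r, 0 < r → 0 < j r := by
    intro r hr
    by_contra hle
    push Not at hle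
    have hεr : ε < r := by
      by_contra h5
      push Not at h5
      exact absurd (hpos r ⟨hr, h5⟩) (not_lt.2 hle)
    have h6 : (0 : ℝ) ∈ Icc (j r) (j ε) := ⟨hle, (hpos ε ⟨hε, le_rfl⟩).le⟩
    obtain ⟨x, hx, hx0⟩ := intermediate_value_Icc' hεr.le cj.continuousOn h6
    have h7 : j ε ^ 2 ≤ j x ^ 2 := hsq (show (0 : ℝ) ≤ ε from hε.le)
      (show (0 : ℝ) ≤ x by linarith [hx.1]) hx.1
    rw [hx0] at h7
    have := hpos ε ⟨hε, le_rfl⟩
    nlinarith
  have hj0 : ∀ r, 0 ≤ r → 0 ≤ j r := by
    intro r hr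
    rcases eq_or_lt_of_le hr with h | h
    · rw [← h, h0]
    · exact (hjpos r h).le
  have hj'mono : MonotoneOn j' (Ici 0) := by
    refine monotoneOn_of_deriv_nonneg (convex_Ici 0) cj'.continuousOn
      (fun r _ => (hj' r).differentiableAt.differentiableWithinAt) (fun r hr => ?_)
    rw [interior_Ici] at hr
    rw [(hj' r).deriv]
    exact mul_nonneg (hq0 r) (hj0 r (le_of_lt hr))
  have hj'1 : ∀ r, 0 ≤ r → 1 ≤ j' r := by
    intro r hr
    have := hj'mono (show (0 : ℝ) ∈ Ici (0 : ℝ) from mem_Ici.2 le_rfl) (show r ∈ Ici 0 from hr) hr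
    rwa [h1] at this
  refine ⟨?_, ?_, ?_⟩
  · intro r hr
    have h8 : MonotoneOn (fun r => j r - r) (Ici 0) := by
      refine monotoneOn_of_deriv_nonneg (convex_Ici 0) (cj.sub continuous_id).continuousOn
        (fun r _ => ((hj r).sub (hasDerivAt_id r)).differentiableAt.differentiableWithinAt)
        (fun r hr => ?_)
      rw [interior_Ici] at hr
      have h9 : HasDerivAt (fun r => j r - r) (j' r - 1) r := (hj r).sub (hasDerivAt_id r)
      rw [h9.deriv]
      linarith [hj'1 r (le_of_lt hr)]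
    have h10 := h8 (show (0 : ℝ) ∈ Ici (0 : ℝ) from mem_Ici.2 le_rfl) (show r ∈ Ici 0 from hr) hr
    simp only [h0, sub_zero] at h10
    linarith
  · intro r hr
    have h8 : MonotoneOn (fun r => r * j' r - j r) (Ici 0) := by
      have hd : ∀ r, HasDerivAt (fun r => r * j' r - j r) (1 * j' r + r * (q r * j r) - j' r) r :=
        fun r => ((hasDerivAt_id r).mul (hj' r)).sub (hj r)
      refine monotoneOn_of_deriv_nonneg (convex_Ici 0)
        ((continuous_id.mul cj').sub cj).continuousOn
        (fun r _ => (hd r).differentiableAt.differentiableWithinAt) (fun r hr => ?_)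
      rw [interior_Ici] at hr
      rw [(hd r).deriv]
      have := mul_nonneg (le_of_lt hr) (mul_nonneg (hq0 r) (hj0 r (le_of_lt hr)))
      linarith
    have h10 := h8 (show (0 : ℝ) ∈ Ici (0 : ℝ) from mem_Ici.2 le_rfl) (show r ∈ Ici 0 from hr.le) hr.le
    simp only [h0, zero_mul, sub_zero] at h10
    rw [div_le_iff₀ hr]
    linarith
  · intro r hr
    have h8 : AntitoneOn (fun r => r * j' r - j r - K * r ^ 2 * j r) (Ici 0) := by
      have hd : ∀ r, HasDerivAt (fun r => r * j' r - j r - K * r ^ 2 * j r)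
          (1 * j' r + r * (q r * j r) - j' r - (K * (2 * r) * j r + K * r ^ 2 * j' r)) r := by
        intro r
        have h9 : HasDerivAt (fun r : ℝ => K * r ^ 2) (K * (2 * r)) r := by
          simpa using (hasDerivAt_pow 2 r).const_mul K
        exact (((hasDerivAt_id r).mul (hj' r)).sub (hj r)).sub (h9.mul (hj r))
      refine antitoneOn_of_deriv_nonpos (convex_Ici 0)
        (((continuous_id.mul cj').sub cj).sub
          ((continuous_const.mul (continuous_id.pow 2)).mul cj)).continuousOn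
        (fun r _ => (hd r).differentiableAt.differentiableWithinAt) (fun r hr => ?_)
      rw [interior_Ici] at hr
      have hr' : 0 < r := hr
      rw [(hd r).deriv]
      have a1 : r * (q r * j r) ≤ r * (K * j r) :=
        mul_le_mul_of_nonneg_left (mul_le_mul_of_nonneg_right (hqK r) (hj0 r hr'.le)) hr'.le
      have a2 : 0 ≤ r * (K * j r) := mul_nonneg hr'.le (mul_nonneg hK (hj0 r hr'.le))
      have a3 : 0 ≤ K * r ^ 2 * j' r :=
        mul_nonneg (mul_nonneg hK (sq_nonneg r)) (zero_le_one.trans (hj'1 r hr'.le))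
      nlinarith
    have h10 := h8 (show (0 : ℝ) ∈ Ici (0 : ℝ) from mem_Ici.2 le_rfl) (show r ∈ Ici 0 from hr.le) hr.le
    simp only [h0, zero_mul, mul_zero, sub_zero] at h10
    have h11 : r * j' r ≤ j r + K * r ^ 2 * j r := by linarith
    have h12 : j r * (1 / r + K * r) = (j r + K * r ^ 2 * j r) / r := by
      field_simp
    rw [h12, le_div_iff₀ hr]
    linarith

/-- the computation for one geodesic -/
theorem core (F : ℝ → ℝ) (K : ℝ) (hF : Prof F) (hB : FB F K) (s a b sg pi al be : ℝ → ℝ)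
    (hs : ∀ r, HasDerivAt s (a r) r)
    (ha : ∀ r, HasDerivAt a (F (s r) * deriv F (s r) * b r ^ 2) r)
    (hb : ∀ r, HasDerivAt b (-(2 * (deriv F (s r) / F (s r)) * a r * b r)) r)
    (hu : ∀ r, a r ^ 2 + F (s r) ^ 2 * b r ^ 2 = 1)
    (h1 : ∀ r, a r * al r + F (s r) ^ 2 * b r * be r
      + F (s r) * deriv F (s r) * b r ^ 2 * sg r = 0)
    (hsg : ∀ r, HasDerivAt sg (al r) r) (hpi : ∀ r, HasDerivAt pi (be r) r)
    (hal : ∀ r, HasDerivAt al ((deriv F (s r) ^ 2 + F (s r) * deriv (deriv F) (s r)) * sg r * b r ^ 2 +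
      2 * F (s r) * deriv F (s r) * b r * be r) r)
    (hbe : ∀ r, HasDerivAt be (-(2 * (deriv (deriv F) (s r) / F (s r) - (deriv F (s r) / F (s r)) ^ 2) *
        sg r * a r * b r) - 2 * (deriv F (s r) / F (s r)) * (al r * b r + a r * be r)) r)
    (sg0 : sg 0 = 0) (pi0 : pi 0 = 0) (e0 : F (s 0) * (a 0 * be 0 - b 0 * al 0) = 1) :
    ∃ j j' : ℝ → ℝ, (∀ r, j r = F (s r) * (a r * pi r - b r * sg r)) ∧
      (∀ r, j' r = deriv F (s r) * pi r + deriv F (s r) * a r * b r * sg r
        + F (s r) * (a r * be r - b r * al r)) ∧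
      j 0 = 0 ∧ (∀ r, HasDerivAt j (j' r) r) ∧ (∀ r, 0 ≤ r → r ≤ j r) ∧
      (∀ r, 0 < r → j r / r ≤ j' r) ∧ (∀ r, 0 < r → j' r ≤ j r * (1 / r + K * r)) ∧
      (∀ r, sg r = -(F (s r) * b r * j r)) ∧ (∀ r, pi r = a r / F (s r) * j r) ∧
      (∀ r, al r = F (s r) * deriv F (s r) * b r * pi r - F (s r) * b r * j' r) ∧
      ∀ r, be r = -(deriv F (s r) / F (s r) * (sg r * b r + pi r * a r)) + a r / F (s r) * j' r := by
  have hFne : ∀ r, F (s r) ≠ 0 := fun r => (hF.pos _).ne'
  have dF : ∀ x, HasDerivAt F (deriv F x) x := fun x =>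
    (hF.smooth.differentiable (by simp) x).hasDerivAt
  have dG : ∀ x, HasDerivAt (deriv F) (deriv (deriv F) x) x := fun x =>
    (hB.sm1.differentiable (by simp) x).hasDerivAt
  have hFs : ∀ r, HasDerivAt (fun r => F (s r)) (deriv F (s r) * a r) r := fun r =>
    (dF (s r)).comp r (hs r)
  have hGs : ∀ r, HasDerivAt (fun r => deriv F (s r)) (deriv (deriv F) (s r) * a r) r := fun r =>
    (dG (s r)).comp r (hs r)
  -- Gauss lemma
  have gauss : ∀ r, a r * sg r + F (s r) ^ 2 * b r * pi r = 0 := by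
    have hd : ∀ r, HasDerivAt (fun r => a r * sg r + F (s r) ^ 2 * b r * pi r) 0 r := by
      intro r
      have h2 := ((ha r).mul (hsg r)).add (((((hFs r).pow 2).mul (hb r))).mul (hpi r))
      refine h2.congr_deriv ?_
      have h3 := h1 r
      have h4 := hFne r
      simp only [Nat.cast_ofNat, Nat.add_one_sub_one, pow_one, Pi.mul_apply, Pi.pow_apply]
      field_simp
      linear_combination h3
    have h5 := is_const_of_deriv_eq_zero (fun r => (hd r).differentiableAt) (fun r => (hd r).deriv)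
    intro r
    have h6 := h5 r 0
    simp only [sg0, pi0, mul_zero, add_zero] at h6
    exact h6
  set j : ℝ → ℝ := fun r => F (s r) * (a r * pi r - b r * sg r) with hj
  set j' : ℝ → ℝ := fun r => deriv F (s r) * pi r + deriv F (s r) * a r * b r * sg r
        + F (s r) * (a r * be r - b r * al r) with hj'
  have dj : ∀ r, HasDerivAt j (j' r) r := by
    intro r
    have h2 := (hFs r).mul (((ha r).mul (hpi r)).sub ((hb r).mul (hsg r)))
    refine h2.congr_deriv ?_
    have h4 := hFne r
    have h5 := hu r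
    have hq : F (s r) * (deriv F (s r) / F (s r)) = deriv F (s r) := mul_div_cancel₀ _ h4
    simp only [hj', Pi.mul_apply, Pi.sub_apply]
    linear_combination (deriv F (s r) * pi r) * h5 + (2 * a r * b r * sg r) * hq
  have dj' : ∀ r, HasDerivAt j' (deriv (deriv F) (s r) / F (s r) * j r) r := by
    intro r
    have h2 := (((hGs r).mul (hpi r)).add ((((hGs r).mul (ha r)).mul (hb r)).mul (hsg r))).add
      ((hFs r).mul (((ha r).mul (hbe r)).sub ((hb r).mul (hal r))))
    refine h2.congr_deriv ?_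
    have h4 := hFne r
    have h5 := hu r
    obtain ⟨q, hq⟩ : ∃ q, deriv F (s r) / F (s r) = q := ⟨_, rfl⟩
    obtain ⟨m, hm⟩ : ∃ m, deriv (deriv F) (s r) / F (s r) = m := ⟨_, rfl⟩
    have hq' : deriv F (s r) = F (s r) * q := by
      rw [← hq]
      field_simp
    have hm' : deriv (deriv F) (s r) = F (s r) * m := by
      rw [← hm]
      field_simp
    simp only [hj, Pi.mul_apply, Pi.sub_apply]
    rw [hq, hm, hq', hm']
    linear_combination (-(F (s r) * m * b r * sg r) - F (s r) * q * be r) * h5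
  have hj0 : j 0 = 0 := by
    simp only [hj, sg0, pi0, mul_zero, sub_zero]
  have hj'0 : j' 0 = 1 := by
    simp only [hj', sg0, pi0, mul_zero, zero_add]
    exact e0
  obtain ⟨c1, c2, c3⟩ := ode j j' (fun r => deriv (deriv F) (s r) / F (s r)) K
    (by linarith [hB.K1]) dj dj' hj0 hj'0
    (fun r => div_nonneg (hF.convex _) (hF.pos _).le)
    (fun r => by
      rw [div_le_iff₀ (hF.pos _)]
      exact hB.d2F _)
  refine ⟨j, j', fun r => rfl, fun r => rfl, hj0, dj, c1, c2, c3, ?_, ?_, ?_, ?_⟩
  · intro r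
    have h3 := gauss r
    have h5 := hu r
    simp only [hj]
    linear_combination (-(sg r)) * h5 + a r * h3
  · intro r
    have h3 := gauss r
    have h4 := hFne r
    have h5 := hu r
    simp only [hj]
    field_simp
    linear_combination (-(pi r)) * h5 + b r * h3
  · intro r
    have h3 := h1 r
    have h4 := hFne r
    have h5 := hu r
    simp only [hj']
    linear_combination (-(al r)) * h5 + a r * h3
  · intro r
    have h3 := h1 r
    have h4 := hFne r
    have h5 := hu r
    simp only [hj']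
    field_simp
    linear_combination (-(F (s r) * be r + deriv F (s r) * sg r * b r)) * h5 +
      F (s r) * b r * h3

end JAC

open JAC in
theorem jac : T_JAC := by
  intro F K hF hB s1 S P A B h
  obtain ⟨cS, cP, cA, cB⟩ := h.c1
  have dS : ∀ r θ, HasDerivAt (S r) (deriv (S r) θ) θ := fun r θ =>
    ((cS.differentiable one_ne_zero).comp
      ((differentiable_const r).prodMk differentiable_id) θ).hasDerivAt
  have dA : ∀ r θ, HasDerivAt (A r) (deriv (A r) θ) θ := fun r θ =>
    ((cA.differentiable one_ne_zero).comp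
      ((differentiable_const r).prodMk differentiable_id) θ).hasDerivAt
  have dB : ∀ r θ, HasDerivAt (B r) (deriv (B r) θ) θ := fun r θ =>
    ((cB.differentiable one_ne_zero).comp
      ((differentiable_const r).prodMk differentiable_id) θ).hasDerivAt
  have dF : ∀ x, HasDerivAt F (deriv F x) x := fun x =>
    (hF.smooth.differentiable (by simp) x).hasDerivAt
  have h1 : ∀ r θ, A r θ * deriv (A r) θ + F (S r θ) ^ 2 * B r θ * deriv (B r) θ
      + F (S r θ) * deriv F (S r θ) * B r θ ^ 2 * deriv (S r) θ = 0 := by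
    intro r θ
    have hFS : HasDerivAt (fun θ => F (S r θ)) (deriv F (S r θ) * deriv (S r) θ) θ :=
      (dF _).comp θ (dS r θ)
    have h2 := ((dA r θ).pow 2).add ((hFS.pow 2).mul ((dB r θ).pow 2))
    have h3 : HasDerivAt (fun θ => A r θ ^ 2 + F (S r θ) ^ 2 * B r θ ^ 2) 0 θ := by
      have h4 : (fun θ => A r θ ^ 2 + F (S r θ) ^ 2 * B r θ ^ 2) = fun _ => 1 := by
        funext θ
        exact h.unit r θ
      rw [h4]
      exact hasDerivAt_const _ _
    have h5 := h2.unique h3
    simp only [Nat.cast_ofNat, Nat.add_one_sub_one, pow_one, Pi.mul_apply, Pi.pow_apply] at h5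
    linear_combination (1 / 2) * h5
  have key := fun θ => core F K hF hB (fun r => S r θ) (fun r => A r θ) (fun r => B r θ)
    (fun r => deriv (S r) θ) (fun r => deriv (P r) θ) (fun r => deriv (A r) θ)
    (fun r => deriv (B r) θ) (fun r => h.Sr r θ) (fun r => h.Ar r θ) (fun r => h.Br r θ)
    (fun r => h.unit r θ) (fun r => h1 r θ) (fun r => h.linS r θ) (fun r => h.linP r θ)
    (fun r => h.linA r θ) (fun r => h.linB r θ)
    (by
      have : S 0 = fun _ => s1 := funext h.S0
      simp only [this]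
      simp)
    (by
      have : P 0 = fun _ => 0 := funext h.P0
      simp only [this]
      simp)
    (by
      have e1 : A 0 = Real.cos := funext h.A0
      have e2 : B 0 = fun θ => Real.sin θ / F s1 := funext h.B0
      have e3 : deriv (B 0) θ = Real.cos θ / F s1 := by
        rw [e2]
        simp
      have e4 : deriv (A 0) θ = -Real.sin θ := by
        rw [e1]
        simp
      show F (S 0 θ) * (A 0 θ * deriv (B 0) θ - B 0 θ * deriv (A 0) θ) = 1
      rw [e3, e4, h.A0, h.B0, h.S0]
      have h4 : F s1 ≠ 0 := (hF.pos _).ne'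
      field_simp
      linear_combination Real.cos_sq_add_sin_sq θ)
  choose J J' k1 k2 k3 k4 k5 k6 k7 k8 k9 k10 k11 using key
  exact ⟨fun r θ => J θ r, fun r θ => J' θ r, fun θ => k3 θ, fun r θ => k4 θ r,
    fun r θ hr => k5 θ r hr, fun r θ hr => k6 θ r hr, fun r θ hr => k7 θ r hr, fun r θ => k8 θ r,
    fun r θ => k9 θ r, fun r θ => k10 θ r, fun r θ => k11 θ r⟩

end Pool.Agent.H32.HK
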