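import Mathlib
import Pool.Agent.H96.HK.Basic

/-!
# MP_e94f6f_an, module L4A: the flat subsolution in a rectangle
-/

open MeasureTheory Set Filter Topology
open scoped ContDiff

namespace Pool.Agent.H32.HK

open Pool.Agent.H96.HK

namespace L4A

/-- plane coordinates relative to the angle `m` -/
noncomputable def X1 (m : ℝ) (z : X) : ℝ := z.1 * Real.cos (z.2 - m)
noncomputable def Y1 (m : ℝ) (z : X) : ℝ := z.1 * Real.sin (z.2 - m)

/-- the one-dimensional subsolutions -/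
noncomputable def aa (L t x : ℝ) : ℝ := gg t x - gg t (x + 2 / 5) - gg t (x - (2 * L + 2 / 5))
noncomputable def bb (t x : ℝ) : ℝ := gg t x - gg t (x - 2 / 5) - gg t (x + 2 / 5)

theorem gg_nonneg (t x : ℝ) : 0 ≤ gg t x := by
  unfold gg
  positivity

theorem gg_mul {t : ℝ} (ht : 0 < t) (x y : ℝ) : gg t x * gg t y = E2 t (x ^ 2 + y ^ 2) := by
  unfold gg E2
  have h4 : 0 < 4 * Real.pi * t := by positivity
  have e1 : (√(4 * Real.pi * t))⁻¹ * (√(4 * Real.pi * t))⁻¹ = (4 * Real.pi * t)⁻¹ := by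
    rw [← mul_inv, Real.mul_self_sqrt h4.le]
  have e2 : Real.exp (-((x ^ 2 + y ^ 2) / (4 * t))) =
      Real.exp (-(x ^ 2 / (4 * t))) * Real.exp (-(y ^ 2 / (4 * t))) := by
    rw [← Real.exp_add]
    congr 1
    ring
  rw [e2, ← e1]
  ring

theorem gg_anti {t : ℝ} (ht : 0 < t) {x y : ℝ} (h : x ^ 2 ≤ y ^ 2) : gg t y ≤ gg t x := by
  unfold gg
  refine mul_le_mul_of_nonneg_left (Real.exp_le_exp.2 ?_) (by positivity)
  rw [neg_le_neg_iff]
  exact div_le_div_of_nonneg_right h (by positivity)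

theorem gg_cont : ContinuousOn (fun z : ℝ × ℝ => gg z.1 z.2) (Ioi 0 ×ˢ univ) := by
  intro z hz
  have ht : 0 < z.1 := hz.1
  have h4 : 0 < 4 * Real.pi * z.1 := by positivity
  unfold gg
  refine ContinuousAt.continuousWithinAt ?_
  refine ContinuousAt.mul ?_ ?_
  · refine ContinuousAt.inv₀ ?_ (Real.sqrt_pos.2 h4).ne'
    exact (Real.continuous_sqrt.comp (continuous_const.mul continuous_fst)).continuousAt
  · refine Real.continuous_exp.continuousAt.comp ?_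
    refine ContinuousAt.neg (ContinuousAt.div ?_ ?_ (by positivity))
    · exact (continuous_snd.pow 2).continuousAt
    · exact (continuous_const.mul continuous_fst).continuousAt

theorem gg_contAt {t x : ℝ} (ht : 0 < t) : ContinuousAt (fun z : ℝ × ℝ => gg z.1 z.2) (t, x) :=
  gg_cont.continuousAt ((isOpen_Ioi.prod isOpen_univ).mem_nhds ⟨ht, mem_univ _⟩)

theorem aa_left {t : ℝ} (ht : 0 < t) {L x : ℝ} (hx : x ≤ -(1 / 5)) : aa L t x ≤ 0 := by
  unfold aa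
  have h1 : gg t x ≤ gg t (x + 2 / 5) := gg_anti ht (by nlinarith)
  have h2 := gg_nonneg t (x - (2 * L + 2 / 5))
  linarith

theorem aa_right {t : ℝ} (ht : 0 < t) {L x : ℝ} (hL : 0 ≤ L) (hx : L + 1 / 5 ≤ x) :
    aa L t x ≤ 0 := by
  unfold aa
  have h1 : gg t x ≤ gg t (x - (2 * L + 2 / 5)) := gg_anti ht (by nlinarith)
  have h2 := gg_nonneg t (x + 2 / 5)
  linarith

theorem bb_left {t : ℝ} (ht : 0 < t) {x : ℝ} (hx : x ≤ -(1 / 5)) : bb t x ≤ 0 := by
  unfold bb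
  have h1 : gg t x ≤ gg t (x + 2 / 5) := gg_anti ht (by nlinarith)
  have h2 := gg_nonneg t (x - 2 / 5)
  linarith

theorem bb_right {t : ℝ} (ht : 0 < t) {x : ℝ} (hx : 1 / 5 ≤ x) : bb t x ≤ 0 := by
  unfold bb
  have h1 : gg t x ≤ gg t (x - 2 / 5) := gg_anti ht (by nlinarith)
  have h2 := gg_nonneg t (x + 2 / 5)
  linarith

theorem aa_le (L t x : ℝ) : aa L t x ≤ gg t x := by
  unfold aa
  have h1 := gg_nonneg t (x + 2 / 5)
  have h2 := gg_nonneg t (x - (2 * L + 2 / 5))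
  linarith

theorem bb_le (t x : ℝ) : bb t x ≤ gg t x := by
  unfold bb
  have h1 := gg_nonneg t (x + 2 / 5)
  have h2 := gg_nonneg t (x - 2 / 5)
  linarith

theorem gg_comp {Y : Type*} [TopologicalSpace Y] {f g : Y → ℝ} {y : Y} (hf : ContinuousAt f y)
    (hg : ContinuousAt g y) (h : 0 < f y) : ContinuousAt (fun y => gg (f y) (g y)) y :=
  ContinuousAt.comp (f := fun y => (f y, g y)) (g := fun z : ℝ × ℝ => gg z.1 z.2)
    (gg_contAt h) (hf.prodMk hg)

theorem aa_comp {Y : Type*} [TopologicalSpace Y] {f g : Y → ℝ} {y : Y} (L : ℝ)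
    (hf : ContinuousAt f y) (hg : ContinuousAt g y) (h : 0 < f y) :
    ContinuousAt (fun y => aa L (f y) (g y)) y := by
  unfold aa
  exact ((gg_comp hf hg h).sub (gg_comp hf (hg.add continuousAt_const) h)).sub
    (gg_comp hf (hg.sub continuousAt_const) h)

theorem bb_comp {Y : Type*} [TopologicalSpace Y] {f g : Y → ℝ} {y : Y}
    (hf : ContinuousAt f y) (hg : ContinuousAt g y) (h : 0 < f y) :
    ContinuousAt (fun y => bb (f y) (g y)) y := by
  unfold bb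
  exact ((gg_comp hf hg h).sub (gg_comp hf (hg.sub continuousAt_const) h)).sub
    (gg_comp hf (hg.add continuousAt_const) h)

/-- the frame: pole `q`, other point `p`, direction `(e1, e2)`, length `L` -/
structure Fr (p q : X) (m L e1 e2 : ℝ) : Prop where
  p1 : 2 ≤ p.1
  q1 : 2 ≤ q.1
  hm : m = (p.2 + q.2) / 2
  ang : |p.2 - q.2| ≤ Real.pi / 2
  L0 : 0 ≤ L
  un : e1 ^ 2 + e2 ^ 2 = 1
  hx : X1 m p - X1 m q = L * e1
  hy : Y1 m p - Y1 m q = L * e2

noncomputable def xi (m e1 e2 : ℝ) (q z : X) : ℝ :=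
  (X1 m z - X1 m q) * e1 + (Y1 m z - Y1 m q) * e2
noncomputable def ze (m e1 e2 : ℝ) (q z : X) : ℝ :=
  -(X1 m z - X1 m q) * e2 + (Y1 m z - Y1 m q) * e1

theorem cm_plane (m : ℝ) (z w : X) : cm z w = (X1 m z - X1 m w) ^ 2 + (Y1 m z - Y1 m w) ^ 2 := by
  unfold cm X1 Y1
  have h1 : z.2 - w.2 = (z.2 - m) - (w.2 - m) := by ring
  rw [h1, Real.cos_sub]
  have h2 := Real.cos_sq_add_sin_sq (z.2 - m)
  have h3 := Real.cos_sq_add_sin_sq (w.2 - m)
  linear_combination (-(z.1 ^ 2)) * h2 - w.1 ^ 2 * h3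

theorem exists_polar (x y : ℝ) : ∃ r θ : ℝ, r * Real.cos θ = x ∧ r * Real.sin θ = y := by
  refine ⟨‖(⟨x, y⟩ : ℂ)‖, Complex.arg ⟨x, y⟩, ?_, ?_⟩
  · exact Complex.norm_mul_cos_arg ⟨x, y⟩
  · exact Complex.norm_mul_sin_arg ⟨x, y⟩

theorem exists_frame (p q : X) (h1 : 2 ≤ p.1) (h2 : 2 ≤ q.1) (h3 : |p.2 - q.2| ≤ Real.pi / 2) :
    ∃ L e1 e2, Fr p q ((p.2 + q.2) / 2) L e1 e2 := by
  set m := (p.2 + q.2) / 2 with hm
  obtain ⟨r, θ, hx, hy⟩ := exists_polar (X1 m p - X1 m q) (Y1 m p - Y1 m q)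
  rcases le_or_gt 0 r with hr | hr
  · exact ⟨r, Real.cos θ, Real.sin θ, h1, h2, hm, h3, hr, Real.cos_sq_add_sin_sq θ, hx.symm,
      hy.symm⟩
  · refine ⟨-r, -Real.cos θ, -Real.sin θ, h1, h2, hm, h3, by linarith, ?_, ?_, ?_⟩
    · have := Real.cos_sq_add_sin_sq θ
      linarith
    · rw [← hx]; ring
    · rw [← hy]; ring

variable {p q : X} {m L e1 e2 : ℝ}

theorem cm_xi (h : Fr p q m L e1 e2) (z : X) :
    cm z q = xi m e1 e2 q z ^ 2 + ze m e1 e2 q z ^ 2 := by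
  rw [cm_plane m]
  unfold xi ze
  have := h.un
  linear_combination (-(((X1 m z - X1 m q) ^ 2 + (Y1 m z - Y1 m q) ^ 2))) * this

/-- the shifted poles -/
theorem exists_pole (h : Fr p q m L e1 e2) (x0 y0 : ℝ) :
    ∃ w : X, ∀ z : X, cm z w = (xi m e1 e2 q z - x0) ^ 2 + (ze m e1 e2 q z - y0) ^ 2 := by
  obtain ⟨r, θ, hx, hy⟩ := exists_polar (X1 m q + x0 * e1 - y0 * e2) (Y1 m q + x0 * e2 + y0 * e1)
  refine ⟨(r, m + θ), fun z => ?_⟩
  rw [cm_plane m]
  have e3 : X1 m (r, m + θ) = X1 m q + x0 * e1 - y0 * e2 := by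
    rw [← hx]
    unfold X1
    simp
  have e4 : Y1 m (r, m + θ) = Y1 m q + x0 * e2 + y0 * e1 := by
    rw [← hy]
    unfold Y1
    simp
  rw [e3, e4]
  unfold xi ze
  have := h.un
  linear_combination (-(((X1 m z - X1 m q) ^ 2 + (Y1 m z - Y1 m q) ^ 2))
    - (x0 ^ 2 + y0 ^ 2) * 0 + (x0 ^ 2 + y0 ^ 2)) * this

theorem xi_p (h : Fr p q m L e1 e2) : xi m e1 e2 q p = L := by
  unfold xi
  rw [h.hx, h.hy]
  linear_combination L * h.un

theorem ze_p (h : Fr p q m L e1 e2) : ze m e1 e2 q p = 0 := by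
  unfold ze
  rw [h.hx, h.hy]
  ring

theorem xi_q : xi m e1 e2 q q = 0 := by unfold xi; ring
theorem ze_q : ze m e1 e2 q q = 0 := by unfold ze; ring

/-- the compact set -/
def Kc (m L e1 e2 : ℝ) (q : X) : Set X :=
  {z | 0 ≤ z.1 ∧ |z.2 - m| ≤ Real.pi / 2 ∧ -(1 / 5) ≤ xi m e1 e2 q z ∧
    xi m e1 e2 q z ≤ L + 1 / 5 ∧ |ze m e1 e2 q z| ≤ 1 / 5}

/-- the open set -/
def OO (m : ℝ) : Set X := {z | 0 < z.1 ∧ |z.2 - m| < Real.pi / 2}

theorem OO_open (m : ℝ) : IsOpen (OO m) :=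
  (isOpen_lt continuous_const continuous_fst).inter
    (isOpen_lt ((continuous_snd.sub continuous_const).abs) continuous_const)

theorem cos_half {x : ℝ} (hx : |x| ≤ Real.pi / 4) : √2 / 2 ≤ Real.cos x := by
  rw [← Real.cos_pi_div_four, ← Real.cos_abs x]
  exact Real.cos_le_cos_of_nonneg_of_le_pi (abs_nonneg _) (by linarith [Real.pi_pos]) hx

theorem X1_p (h : Fr p q m L e1 e2) : √2 ≤ X1 m p := by
  have h1 : |p.2 - m| ≤ Real.pi / 4 := by
    rw [h.hm]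
    have : p.2 - (p.2 + q.2) / 2 = (p.2 - q.2) / 2 := by ring
    rw [this, abs_div, abs_two]
    linarith [h.ang]
  have h2 := cos_half h1
  unfold X1
  have h3 := h.p1
  nlinarith [Real.sqrt_nonneg 2]

theorem X1_q (h : Fr p q m L e1 e2) : √2 ≤ X1 m q := by
  have h1 : |q.2 - m| ≤ Real.pi / 4 := by
    rw [h.hm]
    have : q.2 - (p.2 + q.2) / 2 = -((p.2 - q.2) / 2) := by ring
    rw [this, abs_neg, abs_div, abs_two]
    linarith [h.ang]
  have h2 := cos_half h1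
  unfold X1
  have h3 := h.q1
  nlinarith [Real.sqrt_nonneg 2]

theorem X1_eq (h : Fr p q m L e1 e2) (z : X) :
    X1 m z = X1 m q + xi m e1 e2 q z * e1 - ze m e1 e2 q z * e2 := by
  unfold xi ze
  linear_combination (-(X1 m z - X1 m q)) * h.un

theorem Y1_eq (h : Fr p q m L e1 e2) (z : X) :
    Y1 m z = Y1 m q + xi m e1 e2 q z * e2 + ze m e1 e2 q z * e1 := by
  unfold xi ze
  linear_combination (-(Y1 m z - Y1 m q)) * h.un

/-- in the rectangle the first coordinate is larger than one -/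
theorem X1_low (h : Fr p q m L e1 e2) {z : X} (h1 : -(1 / 5) ≤ xi m e1 e2 q z)
    (h2 : xi m e1 e2 q z ≤ L + 1 / 5) (h3 : |ze m e1 e2 q z| ≤ 1 / 5) : 1 < X1 m z := by
  rw [X1_eq h z]
  set x := xi m e1 e2 q z with hx
  set y := ze m e1 e2 q z with hy
  have hs2 : √2 * √2 = 2 := Real.mul_self_sqrt (by norm_num)
  have hs0 : 0 ≤ √2 := Real.sqrt_nonneg 2
  have hs1 : 7 / 5 < √2 := by
    by_contra hlt
    push Not at hlt
    nlinarith
  -- the clamp of x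
  obtain ⟨c, hc0, hcL, hcx⟩ : ∃ c, 0 ≤ c ∧ c ≤ L ∧ |x - c| ≤ 1 / 5 := by
    rcases le_or_gt x 0 with h4 | h4
    · exact ⟨0, le_rfl, h.L0, by rw [abs_le]; constructor <;> linarith⟩
    · rcases le_or_gt x L with h5 | h5
      · exact ⟨x, h4.le, h5, by simp⟩
      · exact ⟨L, h.L0, le_rfl, by rw [abs_le]; constructor <;> linarith⟩
  have hp := X1_p h
  have hq := X1_q h
  have hpx := h.hx
  have hseg : √2 ≤ X1 m q + c * e1 := by
    rcases eq_or_lt_of_le h.L0 with h6 | h6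
    · have : c = 0 := le_antisymm (by linarith) hc0
      rw [this]
      linarith
    · have h7 : c * e1 = (c / L) * (L * e1) := by field_simp
      rw [h7, ← hpx]
      have h8 : 0 ≤ c / L := by positivity
      have h9 : c / L ≤ 1 := by rw [div_le_one h6]; exact hcL
      nlinarith
  have herr : |(x - c) * e1 - y * e2| ≤ √2 / 5 := by
    have h10 : ((x - c) * e1 - y * e2) ^ 2 ≤ ((x - c) ^ 2 + y ^ 2) * (e1 ^ 2 + e2 ^ 2) := by
      nlinarith [sq_nonneg ((x - c) * e2 + y * e1)]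
    rw [h.un, mul_one] at h10
    have h11 : (x - c) ^ 2 ≤ (1 / 5) ^ 2 := by
      rw [← sq_abs]
      exact pow_le_pow_left₀ (abs_nonneg _) hcx 2
    have h12 : y ^ 2 ≤ (1 / 5) ^ 2 := by
      rw [← sq_abs]
      exact pow_le_pow_left₀ (abs_nonneg _) h3 2
    refine abs_le_of_sq_le_sq ?_ (by positivity)
    rw [div_pow, Real.sq_sqrt (by norm_num)]
    linarith
  have h13 := (abs_le.1 herr).1
  nlinarith

theorem Kc_sub (h : Fr p q m L e1 e2) : Kc m L e1 e2 q ⊆ OO m := by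
  rintro z ⟨h1, h2, h3, h4, h5⟩
  have h6 := X1_low h h3 h4 h5
  unfold X1 at h6
  have hcos1 := Real.cos_le_one (z.2 - m)
  have hz : 0 < z.1 := by
    rcases eq_or_lt_of_le h1 with h7 | h7
    · rw [← h7] at h6
      linarith
    · exact h7
  have hcos : 0 < Real.cos (z.2 - m) := by
    by_contra hle
    push Not at hle
    nlinarith
  refine ⟨hz, lt_of_le_of_ne h2 (fun h8 => ?_)⟩
  rw [← Real.cos_abs, h8, Real.cos_pi_div_two] at hcos
  exact lt_irrefl _ hcos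

theorem Kc_bound (h : Fr p q m L e1 e2) {z : X} (hz : z ∈ Kc m L e1 e2 q) :
    z.1 ≤ |X1 m q| + |Y1 m q| + 2 * L + 2 := by
  obtain ⟨h1, h2, h3, h4, h5⟩ := hz
  have hL := h.L0
  have e3 : z.1 ^ 2 = X1 m z ^ 2 + Y1 m z ^ 2 := by
    unfold X1 Y1
    linear_combination (-(z.1 ^ 2)) * Real.cos_sq_add_sin_sq (z.2 - m)
  have he1 : |e1| ≤ 1 := by
    refine abs_le_of_sq_le_sq ?_ one_pos.le
    have := h.un
    nlinarith [sq_nonneg e2]
  have he2 : |e2| ≤ 1 := by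
    refine abs_le_of_sq_le_sq ?_ one_pos.le
    have := h.un
    nlinarith [sq_nonneg e1]
  have hxi : |xi m e1 e2 q z| ≤ L + 1 / 5 := abs_le.2 ⟨by linarith, h4⟩
  have b1 : |X1 m z| ≤ |X1 m q| + (L + 1 / 5) + 1 / 5 := by
    rw [X1_eq h z]
    have a1 : |xi m e1 e2 q z * e1| ≤ L + 1 / 5 := by
      rw [abs_mul]
      calc |xi m e1 e2 q z| * |e1| ≤ |xi m e1 e2 q z| * 1 :=
            mul_le_mul_of_nonneg_left he1 (abs_nonneg _)
        _ ≤ L + 1 / 5 := by linarith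
    have a2 : |ze m e1 e2 q z * e2| ≤ 1 / 5 := by
      rw [abs_mul]
      calc |ze m e1 e2 q z| * |e2| ≤ |ze m e1 e2 q z| * 1 :=
            mul_le_mul_of_nonneg_left he2 (abs_nonneg _)
        _ ≤ 1 / 5 := by linarith
    have a3 := abs_sub (X1 m q + xi m e1 e2 q z * e1) (ze m e1 e2 q z * e2)
    have a4 := abs_add_le (X1 m q) (xi m e1 e2 q z * e1)
    linarith
  have b2 : |Y1 m z| ≤ |Y1 m q| + (L + 1 / 5) + 1 / 5 := by
    rw [Y1_eq h z]
    have a1 : |xi m e1 e2 q z * e2| ≤ L + 1 / 5 := by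
      rw [abs_mul]
      calc |xi m e1 e2 q z| * |e2| ≤ |xi m e1 e2 q z| * 1 :=
            mul_le_mul_of_nonneg_left he2 (abs_nonneg _)
        _ ≤ L + 1 / 5 := by linarith
    have a2 : |ze m e1 e2 q z * e1| ≤ 1 / 5 := by
      rw [abs_mul]
      calc |ze m e1 e2 q z| * |e1| ≤ |ze m e1 e2 q z| * 1 :=
            mul_le_mul_of_nonneg_left he1 (abs_nonneg _)
        _ ≤ 1 / 5 := by linarith
    have a3 := abs_add_le (Y1 m q + xi m e1 e2 q z * e2) (ze m e1 e2 q z * e1)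
    have a4 := abs_add_le (Y1 m q) (xi m e1 e2 q z * e2)
    linarith
  have b3 : z.1 ≤ |X1 m z| + |Y1 m z| := by
    refine le_of_sq_le_sq ?_ (by positivity)
    rw [e3, ← sq_abs (X1 m z), ← sq_abs (Y1 m z)]
    nlinarith [mul_nonneg (abs_nonneg (X1 m z)) (abs_nonneg (Y1 m z))]
  linarith

theorem cont_xi : Continuous (xi m e1 e2 q) := by
  unfold xi X1 Y1
  fun_prop

theorem cont_ze : Continuous (ze m e1 e2 q) := by
  unfold ze X1 Y1
  fun_prop

theorem Kc_cpt (h : Fr p q m L e1 e2) : IsCompact (Kc m L e1 e2 q) := by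
  refine Metric.isCompact_of_isClosed_isBounded ?_ ?_
  · have c1 : Continuous (fun z : X => |z.2 - m|) := by fun_prop
    exact (isClosed_le continuous_const continuous_fst).inter
      ((isClosed_le c1 continuous_const).inter ((isClosed_le continuous_const cont_xi).inter
        ((isClosed_le cont_xi continuous_const).inter
          (isClosed_le cont_ze.abs continuous_const))))
  · rw [isBounded_iff_forall_norm_le]
    refine ⟨max (|X1 m q| + |Y1 m q| + 2 * L + 2) (|m| + Real.pi), fun z hz => ?_⟩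
    have h1 := Kc_bound h hz
    obtain ⟨h2, h3, _⟩ := hz
    rw [Prod.norm_def]
    refine max_le_max ?_ ?_
    · rw [Real.norm_eq_abs, abs_of_nonneg h2]
      exact h1
    · rw [Real.norm_eq_abs]
      have h4 := abs_sub_abs_le_abs_sub z.2 m
      linarith [Real.pi_pos]

theorem Kc_disj (h : Fr p q m L e1 e2) (k : ℤ) (hk : k ≠ 0) :
    Disjoint (gk k '' Kc m L e1 e2 q) (Kc m L e1 e2 q) := by
  rw [Set.disjoint_left]
  rintro _ ⟨z, hz, rfl⟩ hz'
  have h1 := Kc_sub h hz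
  have h2 := Kc_sub h hz'
  have h3 : 0 < z.1 := h1.1
  have h4 : 0 < (-1 : ℝ) ^ k * z.1 := h2.1
  have h5 : |z.2 - m| < Real.pi / 2 := h1.2
  have h6 : |z.2 + k * (Real.pi / 2) - m| < Real.pi / 2 := h2.2
  have hpi := Real.pi_pos
  have h7 : |(k : ℝ) * (Real.pi / 2)| < Real.pi := by
    have e3 : (k : ℝ) * (Real.pi / 2) = (z.2 + k * (Real.pi / 2) - m) - (z.2 - m) := by ring
    rw [e3]
    have := abs_sub (z.2 + k * (Real.pi / 2) - m) (z.2 - m)
    linarith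
  rw [abs_mul, abs_of_pos (by positivity : 0 < Real.pi / 2)] at h7
  have h8 : |(k : ℝ)| < 2 := by
    by_contra hge
    push Not at hge
    nlinarith
  have h9 : |k| < 2 := by exact_mod_cast h8
  have h10 : k = 1 ∨ k = -1 := by
    rw [abs_lt] at h9
    omega
  rcases h10 with h11 | h11
  · rw [h11] at h4
    simp at h4
    linarith
  · rw [h11] at h4
    norm_num at h4
    linarith

open Classical in
/-- the subsolution -/
noncomputable def ps (m L e1 e2 : ℝ) (q : X) (t : ℝ) (z : X) : ℝ :=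
  if z ∈ Kc m L e1 e2 q then max 0 (aa L t (xi m e1 e2 q z)) * max 0 (bb t (ze m e1 e2 q z)) else 0

theorem ps_OO (h : Fr p q m L e1 e2) {t : ℝ} (ht : 0 < t) {z : X} (hz : z ∈ OO m) :
    ps m L e1 e2 q t z = max 0 (aa L t (xi m e1 e2 q z)) * max 0 (bb t (ze m e1 e2 q z)) := by
  unfold ps
  split_ifs with h1
  · rfl
  · by_cases h2 : -(1 / 5) ≤ xi m e1 e2 q z
    · by_cases h3 : xi m e1 e2 q z ≤ L + 1 / 5
      · by_cases h4 : |ze m e1 e2 q z| ≤ 1 / 5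
        · exact absurd ⟨hz.1.le, hz.2.le, h2, h3, h4⟩ h1
        · have h5 : bb t (ze m e1 e2 q z) ≤ 0 := by
            rw [abs_le] at h4
            by_cases h6 : -(1 / 5) ≤ ze m e1 e2 q z
            · have h7 : ¬ ze m e1 e2 q z ≤ 1 / 5 := fun h8 => h4 ⟨h6, h8⟩
              exact bb_right ht (by linarith)
            · exact bb_left ht (by linarith)
          rw [max_eq_left h5, mul_zero]
      · rw [max_eq_left (aa_right ht h.L0 (by linarith)), zero_mul]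
    · rw [max_eq_left (aa_left ht (by linarith)), zero_mul]

theorem ps_nonneg (t : ℝ) (z : X) : 0 ≤ ps m L e1 e2 q t z := by
  unfold ps
  split_ifs
  · exact mul_nonneg (le_max_left _ _) (le_max_left _ _)
  · exact le_rfl

theorem ps_out (t : ℝ) {z : X} (hz : z ∉ Kc m L e1 e2 q) : ps m L e1 e2 q t z = 0 := by
  unfold ps
  rw [if_neg hz]

theorem aux_cont {t : ℝ} (ht : 0 < t) (z : X) :
    ContinuousAt (fun y : ℝ × X => aa L y.1 (xi m e1 e2 q y.2)) (t, z) ∧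
    ContinuousAt (fun y : ℝ × X => bb y.1 (ze m e1 e2 q y.2)) (t, z) := by
  constructor
  · exact aa_comp L continuous_fst.continuousAt (cont_xi.comp continuous_snd).continuousAt ht
  · exact bb_comp continuous_fst.continuousAt (cont_ze.comp continuous_snd).continuousAt ht

theorem near_OO {t : ℝ} (ht : 0 < t) {z : X} (hz : z ∈ OO m) :
    ∀ᶠ y in 𝓝 ((t, z) : ℝ × X), 0 < y.1 ∧ y.2 ∈ OO m :=
  ((isOpen_Ioi.prod (OO_open m)).mem_nhds (show (t, z) ∈ Ioi (0 : ℝ) ×ˢ OO m from ⟨ht, hz⟩))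

theorem ps_cont (h : Fr p q m L e1 e2) :
    ContinuousOn (fun z : ℝ × X => ps m L e1 e2 q z.1 z.2) (Ioi 0 ×ˢ univ) := by
  rintro ⟨t, z⟩ ⟨ht, _⟩
  have ht' : 0 < t := ht
  refine ContinuousAt.continuousWithinAt ?_
  by_cases hz : z ∈ OO m
  · have h1 : (fun y : ℝ × X => ps m L e1 e2 q y.1 y.2) =ᶠ[𝓝 (t, z)] fun y =>
        max 0 (aa L y.1 (xi m e1 e2 q y.2)) * max 0 (bb y.1 (ze m e1 e2 q y.2)) := by
      filter_upwards [near_OO ht' hz] with y hy
      exact ps_OO h hy.1 hy.2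
    refine ContinuousAt.congr ?_ h1.symm
    obtain ⟨c1, c2⟩ := aux_cont (q := q) (m := m) (L := L) (e1 := e1) (e2 := e2) ht' z
    exact (continuousAt_const.max c1).mul (continuousAt_const.max c2)
  · have hzK : z ∉ Kc m L e1 e2 q := fun hK => hz (Kc_sub h hK)
    have h1 : (fun y : ℝ × X => ps m L e1 e2 q y.1 y.2) =ᶠ[𝓝 (t, z)] fun _ => 0 := by
      have h2 : ∀ᶠ y in 𝓝 ((t, z) : ℝ × X), y.2 ∈ (Kc m L e1 e2 q)ᶜ :=
        continuous_snd.continuousAt.eventually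
          ((Kc_cpt h).isClosed.isOpen_compl.mem_nhds hzK)
      filter_upwards [h2] with y hy
      exact ps_out _ hy
    exact continuousAt_const.congr h1.symm

/-- the nine terms -/
theorem jets (hJ : T_JET) (hC : T_CMH) {F : ℝ → ℝ} (hF : Prof F) (h : Fr p q m L e1 e2) {t : ℝ}
    (ht : 0 < t) {z : X} (hz : z ∈ OO m) (hz1 : 1 < z.1)
    (ha : 0 < aa L t (xi m e1 e2 q z)) (hb : 0 < bb t (ze m e1 e2 q z)) :
    SubJet F (ps m L e1 e2 q) t z := by
  have pos : ∀ x0 y0 : ℝ, ∃ w : X, (∀ z : X, cm z w = (xi m e1 e2 q z - x0) ^ 2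
      + (ze m e1 e2 q z - y0) ^ 2) ∧ SubJet F (fun t z => E2 t (cm z w)) t z ∧
      SubJet F (fun t z => -E2 t (cm z w)) t z := by
    intro x0 y0
    obtain ⟨w, hw⟩ := exists_pole h x0 y0
    obtain ⟨k1, k2⟩ := hC F hF w z hz1 t ht
    exact ⟨w, hw, hJ.cls F _ t z _ k1 k2 le_rfl, hJ.cls' F _ t z _ k1 k2 le_rfl⟩
  obtain ⟨w00, e00, s00, _⟩ := pos 0 0
  obtain ⟨w01, e01, _, s01⟩ := pos 0 (2 / 5)
  obtain ⟨w02, e02, _, s02⟩ := pos 0 (-(2 / 5))
  obtain ⟨w10, e10, _, s10⟩ := pos (-(2 / 5)) 0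
  obtain ⟨w11, e11, s11, _⟩ := pos (-(2 / 5)) (2 / 5)
  obtain ⟨w12, e12, s12, _⟩ := pos (-(2 / 5)) (-(2 / 5))
  obtain ⟨w20, e20, _, s20⟩ := pos (2 * L + 2 / 5) 0
  obtain ⟨w21, e21, s21, _⟩ := pos (2 * L + 2 / 5) (2 / 5)
  obtain ⟨w22, e22, s22, _⟩ := pos (2 * L + 2 / 5) (-(2 / 5))
  have key := hJ.add F _ _ t z (hJ.add F _ _ t z (hJ.add F _ _ t z (hJ.add F _ _ t z
    (hJ.add F _ _ t z (hJ.add F _ _ t z (hJ.add F _ _ t z (hJ.add F _ _ t z s00 s01) s02) s10)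
    s11) s12) s20) s21) s22
  have heq : ∀ τ : ℝ, 0 < τ → ∀ y : X, E2 τ (cm y w00) + -E2 τ (cm y w01) + -E2 τ (cm y w02)
      + -E2 τ (cm y w10) + E2 τ (cm y w11) + E2 τ (cm y w12) + -E2 τ (cm y w20)
      + E2 τ (cm y w21) + E2 τ (cm y w22) = aa L τ (xi m e1 e2 q y) * bb τ (ze m e1 e2 q y) := by
    intro τ hτ y
    rw [e00, e01, e02, e10, e11, e12, e20, e21, e22]
    simp only [← gg_mul hτ]
    unfold aa bb
    have i1 : xi m e1 e2 q y - -(2 / 5) = xi m e1 e2 q y + 2 / 5 := by ring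
    have i2 : ze m e1 e2 q y - -(2 / 5) = ze m e1 e2 q y + 2 / 5 := by ring
    have i3 : xi m e1 e2 q y - 0 = xi m e1 e2 q y := by ring
    have i4 : ze m e1 e2 q y - 0 = ze m e1 e2 q y := by ring
    rw [i1, i2, i3, i4]
    ring
  obtain ⟨c1, c2⟩ := aux_cont (q := q) (m := m) (L := L) (e1 := e1) (e2 := e2) ht z
  refine hJ.mono F _ _ t z ?_ ?_ key
  · show E2 t (cm z w00) + -E2 t (cm z w01) + -E2 t (cm z w02)
      + -E2 t (cm z w10) + E2 t (cm z w11) + E2 t (cm z w12) + -E2 t (cm z w20)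
      + E2 t (cm z w21) + E2 t (cm z w22) = ps m L e1 e2 q t z
    rw [heq t ht z, ps_OO h ht hz, max_eq_right ha.le, max_eq_right hb.le]
  · refine mem_nhdsWithin_of_mem_nhds ?_
    filter_upwards [near_OO ht hz, c1.eventually (lt_mem_nhds ha), c2.eventually (lt_mem_nhds hb)]
      with y hy hya hyb
    show E2 y.1 (cm y.2 w00) + -E2 y.1 (cm y.2 w01) + -E2 y.1 (cm y.2 w02)
      + -E2 y.1 (cm y.2 w10) + E2 y.1 (cm y.2 w11) + E2 y.1 (cm y.2 w12) + -E2 y.1 (cm y.2 w20)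
      + E2 y.1 (cm y.2 w21) + E2 y.1 (cm y.2 w22) ≤ ps m L e1 e2 q y.1 y.2
    rw [heq y.1 hy.1 y.2, ps_OO h hy.1 hy.2, max_eq_right hya.le, max_eq_right hyb.le]

theorem ps_jet (hJ : T_JET) (hC : T_CMH) {F : ℝ → ℝ} (hF : Prof F) (h : Fr p q m L e1 e2) {t : ℝ}
    (ht : 0 < t) {z : X} (hpos : 0 < ps m L e1 e2 q t z) : SubJet F (ps m L e1 e2 q) t z := by
  have hzK : z ∈ Kc m L e1 e2 q := by
    by_contra hn
    rw [ps_out t hn] at hpos
    exact lt_irrefl _ hpos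
  have hz := Kc_sub h hzK
  rw [ps_OO h ht hz] at hpos
  have ha : 0 < aa L t (xi m e1 e2 q z) := by
    by_contra hn
    push Not at hn
    rw [max_eq_left hn, zero_mul] at hpos
    exact lt_irrefl _ hpos
  have hb : 0 < bb t (ze m e1 e2 q z) := by
    by_contra hn
    push Not at hn
    rw [max_eq_left hn, mul_zero] at hpos
    exact lt_irrefl _ hpos
  have hX := X1_low h hzK.2.2.1 hzK.2.2.2.1 hzK.2.2.2.2
  have hz1 : 1 < z.1 := by
    unfold X1 at hX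
    have := Real.cos_le_one (z.2 - m)
    have := hz.1
    nlinarith
  exact jets hJ hC hF h ht hz hz1 ha hb

theorem ps_le (h : Fr p q m L e1 e2) {t : ℝ} (ht : 0 < t) (z : X) :
    ps m L e1 e2 q t z ≤ E2 t (cm z q) := by
  rw [cm_xi h z, ← gg_mul ht]
  unfold ps
  split_ifs with h1
  · exact mul_le_mul (max_le (gg_nonneg _ _) (aa_le _ _ _)) (max_le (gg_nonneg _ _) (bb_le _ _))
      (le_max_left _ _) (gg_nonneg _ _)
  · exact mul_nonneg (gg_nonneg _ _) (gg_nonneg _ _)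

theorem ps_low (h : Fr p q m L e1 e2) {t : ℝ} (ht : 0 < t) (ht2 : t ≤ 1 / 50) :
    E2 t (cm p q) / 4 ≤ ps m L e1 e2 q t p := by
  have hpi := Real.pi_pos
  have hpO : p ∈ OO m := by
    refine ⟨by linarith [h.p1], ?_⟩
    rw [h.hm]
    have : p.2 - (p.2 + q.2) / 2 = (p.2 - q.2) / 2 := by ring
    rw [this, abs_div, abs_two]
    linarith [h.ang]
  rw [ps_OO h ht hpO, cm_xi h p, xi_p h, ze_p h, ← gg_mul ht]
  have hexp : Real.exp (-2) ≤ 1 / 4 := by
    rw [Real.exp_neg]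
    have h1 : (4 : ℝ) ≤ Real.exp 2 := by
      have h2 : (2 : ℝ) ≤ Real.exp 1 := by
        have := Real.add_one_le_exp (1 : ℝ)
        linarith
      have h3 : Real.exp 2 = Real.exp 1 * Real.exp 1 := by
        rw [← Real.exp_add]
        norm_num
      rw [h3]
      nlinarith
    rw [inv_le_comm₀ (Real.exp_pos _) (by norm_num)]
    linarith
  have hr : ∀ x y : ℝ, x ^ 2 + 4 / 25 ≤ y ^ 2 → gg t y ≤ gg t x / 4 := by
    intro x y hxy
    unfold gg
    have h1 : Real.exp (-(y ^ 2 / (4 * t))) ≤ Real.exp (-(x ^ 2 / (4 * t))) * Real.exp (-2) := by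
      rw [← Real.exp_add]
      refine Real.exp_le_exp.2 ?_
      have h2 : (2 : ℝ) ≤ (y ^ 2 - x ^ 2) / (4 * t) := by
        rw [le_div_iff₀ (by positivity)]
        nlinarith
      have h3 : y ^ 2 / (4 * t) = x ^ 2 / (4 * t) + (y ^ 2 - x ^ 2) / (4 * t) := by ring
      linarith
    have h4 : Real.exp (-(y ^ 2 / (4 * t))) ≤ Real.exp (-(x ^ 2 / (4 * t))) * (1 / 4) :=
      h1.trans (mul_le_mul_of_nonneg_left hexp (Real.exp_pos _).le)
    calc (√(4 * Real.pi * t))⁻¹ * Real.exp (-(y ^ 2 / (4 * t)))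
        ≤ (√(4 * Real.pi * t))⁻¹ * (Real.exp (-(x ^ 2 / (4 * t))) * (1 / 4)) :=
          mul_le_mul_of_nonneg_left h4 (by positivity)
      _ = (√(4 * Real.pi * t))⁻¹ * Real.exp (-(x ^ 2 / (4 * t))) / 4 := by ring
  have hL := h.L0
  have a1 : gg t L / 2 ≤ aa L t L := by
    unfold aa
    have b1 := hr L (L + 2 / 5) (by nlinarith)
    have b2 := hr L (L - (2 * L + 2 / 5)) (by nlinarith)
    linarith
  have a2 : gg t 0 / 2 ≤ bb t 0 := by
    unfold bb
    have b1 := hr 0 (0 - 2 / 5) (by norm_num)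
    have b2 := hr 0 (0 + 2 / 5) (by norm_num)
    linarith
  have a3 : gg t L / 2 ≤ max 0 (aa L t L) := a1.trans (le_max_right _ _)
  have a4 : gg t 0 / 2 ≤ max 0 (bb t 0) := a2.trans (le_max_right _ _)
  calc gg t L * gg t 0 / 4 = gg t L / 2 * (gg t 0 / 2) := by ring
    _ ≤ max 0 (aa L t L) * max 0 (bb t 0) :=
      mul_le_mul a3 a4 (div_nonneg (gg_nonneg _ _) (by norm_num)) (le_max_left _ _)

/-- Gaussians at positive distance vanish for small times -/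
theorem E2_small {c : ℝ} (hc : 0 < c) : Tendsto (fun t => E2 t c) (𝓝[>] 0) (𝓝 0) := by
  have h1 : Tendsto (fun x : ℝ => x ^ 1 * Real.exp (-x)) atTop (𝓝 0) :=
    Real.tendsto_pow_mul_exp_neg_atTop_nhds_zero 1
  have h2 : Tendsto (fun t : ℝ => c / 4 * t⁻¹) (𝓝[>] 0) atTop :=
    (tendsto_inv_nhdsGT_zero).const_mul_atTop (by positivity)
  have h3 := (h1.comp h2).const_mul ((Real.pi * c)⁻¹)
  rw [mul_zero] at h3
  refine h3.congr' ?_
  filter_upwards [self_mem_nhdsWithin] with t ht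
  have ht' : 0 < t := ht
  have hpi := Real.pi_pos
  simp only [Function.comp, pow_one]
  unfold E2
  have e3 : -(c / 4 * t⁻¹) = -(c / (4 * t)) := by
    field_simp
  rw [e3]
  field_simp

theorem cm_pos (h : Fr p q m L e1 e2) {z : X} (hz : z ∈ Kc m L e1 e2 q) (hne : z ≠ q) :
    0 < cm z q := by
  have hO := Kc_sub h hz
  have h0 : 0 ≤ cm z q := by
    rw [cm_plane m]
    positivity
  refine lt_of_le_of_ne h0 (fun heq => hne ?_)
  rw [cm_plane m] at heq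
  have h1 : X1 m z = X1 m q := by nlinarith [sq_nonneg (X1 m z - X1 m q), sq_nonneg (Y1 m z - Y1 m q)]
  have h2 : Y1 m z = Y1 m q := by nlinarith [sq_nonneg (X1 m z - X1 m q), sq_nonneg (Y1 m z - Y1 m q)]
  have hq1 := h.q1
  have hz1 : 0 < z.1 := hO.1
  have hpi := Real.pi_pos
  have hqm : |q.2 - m| < Real.pi / 2 := by
    rw [h.hm]
    have : q.2 - (p.2 + q.2) / 2 = -((p.2 - q.2) / 2) := by ring
    rw [this, abs_neg, abs_div, abs_two]
    linarith [h.ang]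
  unfold X1 at h1
  unfold Y1 at h2
  have h3 : z.1 ^ 2 = q.1 ^ 2 := by
    have a1 := Real.cos_sq_add_sin_sq (z.2 - m)
    have a2 := Real.cos_sq_add_sin_sq (q.2 - m)
    have a3 : (z.1 * Real.cos (z.2 - m)) ^ 2 = (q.1 * Real.cos (q.2 - m)) ^ 2 := by rw [h1]
    have a4 : (z.1 * Real.sin (z.2 - m)) ^ 2 = (q.1 * Real.sin (q.2 - m)) ^ 2 := by rw [h2]
    linear_combination (-(z.1 ^ 2)) * a1 + q.1 ^ 2 * a2 + a3 + a4
  have h4 : z.1 = q.1 := by nlinarith
  rw [h4] at h2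
  have h5 : Real.sin (z.2 - m) = Real.sin (q.2 - m) := by
    have : q.1 ≠ 0 := by linarith
    exact mul_left_cancel₀ this h2
  have h6 := abs_lt.1 hO.2
  have h7 := abs_lt.1 hqm
  have h8 := Real.injOn_sin ⟨h6.1.le, h6.2.le⟩ ⟨h7.1.le, h7.2.le⟩ h5
  have h9 : z.2 = q.2 := by linarith
  exact Prod.ext h4 h9

theorem conc1 {F : ℝ → ℝ} (hF : Prof F) (hq : 2 ≤ q.1) {κ : ℝ} (hκ : 0 < κ) (hκ1 : κ < 1) {z : X}
    (hz : nn F q z ≤ κ) : (1 - κ) * nn F q z ^ 2 ≤ cm z q := by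
  have hFq : F q.1 = q.1 := hF.eq_of_one_le (by linarith)
  have hnn0 : 0 ≤ nn F q z := Real.sqrt_nonneg _
  have hnn : nn F q z ^ 2 = (z.1 - q.1) ^ 2 + q.1 ^ 2 * (z.2 - q.2) ^ 2 := by
    unfold nn
    rw [Real.sq_sqrt (by positivity), hFq]
  have hn2 : nn F q z ^ 2 ≤ κ ^ 2 := pow_le_pow_left₀ hnn0 hz 2
  rw [hnn]
  set d := z.2 - q.2 with hd
  have hA : (z.1 - q.1) ^ 2 ≤ κ ^ 2 := by
    rw [hnn] at hn2
    nlinarith [mul_nonneg (sq_nonneg q.1) (sq_nonneg d)]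
  have hA' : |z.1 - q.1| ≤ κ := abs_le_of_sq_le_sq hA hκ.le
  have hB : q.1 ^ 2 * d ^ 2 ≤ κ ^ 2 := by
    rw [hnn] at hn2
    nlinarith [sq_nonneg (z.1 - q.1)]
  have hd2 : d ^ 2 ≤ κ ^ 2 / 4 := by
    have h5 : 4 * d ^ 2 ≤ q.1 ^ 2 * d ^ 2 :=
      mul_le_mul_of_nonneg_right (by nlinarith) (sq_nonneg d)
    linarith
  have hd1 : |d| ≤ 1 := by
    refine abs_le_of_sq_le_sq ?_ one_pos.le
    nlinarith
  have hcos := (abs_le.1 (Real.cos_bound hd1)).2
  have h4 : |d| ^ 4 = d ^ 2 * d ^ 2 := by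
    have : |d| ^ 4 = (|d| ^ 2) * (|d| ^ 2) := by ring
    rw [this, sq_abs]
  rw [h4] at hcos
  have e3 : cm z q = (z.1 - q.1) ^ 2 + 2 * z.1 * q.1 * (1 - Real.cos d) := by
    unfold cm
    ring
  rw [e3]
  have hz1 : q.1 - κ ≤ z.1 := by linarith [(abs_le.1 hA').1]
  have hz0 : 0 < z.1 := by linarith
  have hc2 : d ^ 2 / 2 * (1 - κ / 30) ≤ 1 - Real.cos d := by
    have h5 : d ^ 2 * d ^ 2 * (5 / 96) ≤ d ^ 2 / 2 * (κ / 30) := by
      have h6 : d ^ 2 * (5 / 96) ≤ 1 / 2 * (κ / 30) := by nlinarith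
      nlinarith [sq_nonneg d]
    linarith
  have h7 : q.1 * (1 - κ / 2) ≤ z.1 := by nlinarith
  have h8 : q.1 * (q.1 * (1 - κ / 2) * (d ^ 2 * (1 - κ / 30)))
      ≤ 2 * z.1 * q.1 * (1 - Real.cos d) := by
    have h9 : 0 ≤ d ^ 2 * (1 - κ / 30) := mul_nonneg (sq_nonneg d) (by linarith)
    have h10 : q.1 * (1 - κ / 2) * (d ^ 2 * (1 - κ / 30)) ≤ z.1 * (2 * (1 - Real.cos d)) :=
      mul_le_mul h7 (by linarith) h9 hz0.le
    nlinarith
  have h11 : (1 - κ) * (q.1 ^ 2 * d ^ 2) ≤ q.1 * (q.1 * (1 - κ / 2) * (d ^ 2 * (1 - κ / 30))) := by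
    have h12 : 1 - κ ≤ (1 - κ / 2) * (1 - κ / 30) := by nlinarith
    nlinarith [mul_nonneg (sq_nonneg q.1) (sq_nonneg d)]
  nlinarith [sq_nonneg (z.1 - q.1)]

end L4A

open L4A in
theorem l4a (hJ : T_JET) (hC : T_CMH) (hCO : T_CONC) : T_L4A := by
  intro F hF p q hp hq hang
  obtain ⟨L, e1, e2, h⟩ := exists_frame p q hp hq hang
  set m := (p.2 + q.2) / 2 with hm
  refine ⟨ps m L e1 e2 q, Kc m L e1 e2 q, Kc_cpt h, Kc_disj h, ps_cont h,
    fun t _ z => ps_nonneg t z, fun t _ z hz => ps_out t hz, fun t ht z hz => ps_jet hJ hC hF h ht hz,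
    ?_, fun t ht => ps_low h ht.1 ht.2⟩
  refine hCO F hF q (Kc m L e1 e2 q) 1 (ps m L e1 e2 q) one_pos (Kc_cpt h) ?_
    (fun t _ z => ps_nonneg t z) (fun t _ z hz => ps_out t hz) ?_ ?_
  · intro t ht
    have h1 := ps_cont h
    have h2 : ContinuousOn (fun z : X => ((t, z) : ℝ × X)) univ := by fun_prop
    have h3 := h1.comp h2 (fun z _ => ⟨ht.1, mem_univ _⟩)
    exact continuousOn_univ.1 h3
  · intro κ hκ hκ1
    refine ⟨κ, hκ, fun t ht z hz => ?_⟩
    exact (ps_le h ht.1 z).trans (E2_anti ht.1 (conc1 hF hq hκ hκ1 hz))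
  · intro r hr η hη
    -- compactness
    have cnn : Continuous (fun z : X => nn F q z) := by
      unfold nn
      fun_prop
    have ccm : Continuous (fun z : X => cm z q) := by
      unfold cm
      fun_prop
    have hKr : IsCompact (Kc m L e1 e2 q ∩ {z | r ≤ nn F q z}) :=
      (Kc_cpt h).inter_right (isClosed_le continuous_const cnn)
    rcases (Kc m L e1 e2 q ∩ {z | r ≤ nn F q z}).eq_empty_or_nonempty with he | hne
    · refine Eventually.of_forall (fun t z hz hrz => ?_)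
      have : z ∈ Kc m L e1 e2 q ∩ {z | r ≤ nn F q z} := ⟨hz, hrz⟩
      rw [he] at this
      exact absurd this (notMem_empty z)
    · obtain ⟨z0, hz0, hmin⟩ := hKr.exists_isMinOn hne ccm.continuousOn
      have hpos : 0 < cm z0 q := by
        refine cm_pos h hz0.1 (fun heq => ?_)
        have h1 : r ≤ nn F q z0 := hz0.2
        rw [heq] at h1
        have h2 : nn F q q = 0 := by
          unfold nn
          simp
        linarith
      have h3 := (E2_small hpos).eventually (gt_mem_nhds hη)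
      filter_upwards [h3, self_mem_nhdsWithin] with t ht ht0 z hz hrz
      have ht0' : 0 < t := ht0
      have h4 : cm z0 q ≤ cm z q := hmin ⟨hz, hrz⟩
      exact (ps_le h ht0' z).trans ((E2_anti ht0' h4).trans ht.le)

end Pool.Agent.H32.HK
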